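import Pool.Agent.W203.BE.Stms

set_option autoImplicit false

open MeasureTheory Set Complex
open scoped ENNReal

namespace Pool.Agent.W311.BE

open Pool.Agent.W203.BE

theorem lint_comp (F : ℝ → ℝ≥0∞) {a : ℝ} (ha : 0 < a) :
    ∫⁻ x, F (a * x) = ENNReal.ofReal a⁻¹ * ∫⁻ x, F x := by
  have h1 := (Homeomorph.mulLeft₀ a ha.ne').measurableEmbedding.lintegral_map (μ := volume) F
  have h2 : (Homeomorph.mulLeft₀ a ha.ne' : ℝ → ℝ) = (a * ·) := by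
    funext x; simp
  rw [h2, Real.map_volume_mul_left ha.ne', lintegral_smul_measure] at h1
  rw [abs_of_pos (inv_pos.mpr ha)] at h1
  rw [← h1]
  simp

theorem g1_scale {κ : ℝ} (hκ : 0 < κ) {α : ℂ} (hα : 0 < α.re) (x : ℝ) :
    g1 ((κ : ℂ) * α) x = (((Real.sqrt κ)⁻¹ : ℝ) : ℂ) * g1 α ((Real.sqrt κ)⁻¹ * x) := by
  have hα0 : α ≠ 0 := by
    rintro rfl
    simp at hα
  have hk0 : (κ : ℂ) ≠ 0 := by exact_mod_cast hκ.ne'
  have hs : (Real.sqrt κ) ^ 2 = κ := Real.sq_sqrt hκ.le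
  have hs0 : Real.sqrt κ ≠ 0 := (Real.sqrt_pos.mpr hκ).ne'
  have hsc : ((Real.sqrt κ : ℝ) : ℂ) ^ 2 = (κ : ℂ) := by exact_mod_cast hs
  have hsc0 : ((Real.sqrt κ : ℝ) : ℂ) ≠ 0 := by exact_mod_cast hs0
  unfold g1
  have hpi : (Real.pi : ℂ) ≠ 0 := by exact_mod_cast Real.pi_ne_zero
  have h1 : (Real.pi : ℂ) / ((κ : ℂ) * α) = ((κ⁻¹ : ℝ) : ℂ) * ((Real.pi : ℂ) / α) := by
    push_cast
    field_simp
  have h2 : ((Real.pi : ℂ) / ((κ : ℂ) * α)) ^ (1 / 2 : ℂ) =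
      (((Real.sqrt κ)⁻¹ : ℝ) : ℂ) * ((Real.pi : ℂ) / α) ^ (1 / 2 : ℂ) := by
    rw [h1]
    have h3 : (Real.pi : ℂ) / α ≠ 0 := div_ne_zero hpi hα0
    have h4 : ((κ⁻¹ : ℝ) : ℂ) ≠ 0 := by
      exact_mod_cast (inv_pos.mpr hκ).ne'
    rw [Complex.cpow_def_of_ne_zero (mul_ne_zero h4 h3), Complex.cpow_def_of_ne_zero h3,
      Complex.log_ofReal_mul (inv_pos.mpr hκ) h3, add_mul, Complex.exp_add]
    congr 1
    rw [Real.sqrt_eq_rpow, ← Real.rpow_neg hκ.le, Real.rpow_def_of_pos hκ, Real.log_inv]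
    push_cast
    congr 1
    ring
  rw [h2]
  have h5 : -((Real.pi : ℂ) ^ 2 / ((κ : ℂ) * α)) * (x : ℂ) ^ 2 =
      -((Real.pi : ℂ) ^ 2 / α) * (((Real.sqrt κ)⁻¹ * x : ℝ) : ℂ) ^ 2 := by
    push_cast
    rw [← hsc]
    field_simp
  rw [h5]
  ring

theorem T1_scale {κ : ℝ} (hκ : 0 < κ) {α : ℂ} (hα : 0 < α.re) (g : ℝ → ℂ) (x : ℝ) :
    T1 ((κ : ℂ) * α) g x = T1 α (fun y => g (Real.sqrt κ * y)) ((Real.sqrt κ)⁻¹ * x) := by
  unfold T1
  have hs0 : 0 < Real.sqrt κ := Real.sqrt_pos.mpr hκ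
  have h1 : ∀ y, g1 ((κ : ℂ) * α) (x - y) * g y =
      (Real.sqrt κ)⁻¹ • (g1 α ((Real.sqrt κ)⁻¹ * x - (Real.sqrt κ)⁻¹ * y) * g y) := by
    intro y
    rw [g1_scale hκ hα, Complex.real_smul, mul_sub, mul_assoc]
  simp_rw [h1]
  rw [integral_smul]
  have h2 := MeasureTheory.Measure.integral_comp_mul_left
    (fun y : ℝ => g1 α ((Real.sqrt κ)⁻¹ * x - (Real.sqrt κ)⁻¹ * y) * g y) (Real.sqrt κ)
  rw [abs_of_pos (inv_pos.mpr hs0)] at h2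
  rw [← h2]
  apply integral_congr_ae
  filter_upwards with y
  rw [inv_mul_cancel_left₀ hs0.ne']

theorem al_eq (κ a s : ℝ) : al κ a s = (κ : ℂ) * al 1 a s := by
  unfold al
  apply Complex.ext <;> simp

theorem al_re {κ a s : ℝ} (hκ : 0 < κ) (ha : 1 ≤ a) : 0 < (al κ a s).re := by
  unfold al
  show 0 < κ * (a - 1 / 2)
  apply mul_pos hκ
  linarith

theorem l4 (_h : S_BAS) (hY : S_YNG) (hL : S_L4B) : S_L4 := by
  obtain ⟨C', hC'0, hC'⟩ := hL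
  have hpi := Real.pi_pos
  refine ⟨(1 + 8 * Real.pi) ^ 2 + C', by nlinarith, ?_⟩
  intro κ hκ s g hg hgi
  have hlog0 : 0 ≤ Real.log (1 + |s|) := Real.log_nonneg (by linarith [abs_nonneg s])
  rcases lt_or_ge |s| 1 with hs | hs
  · have h1 : ∀ a ∈ Icc (1 : ℝ) 2, ∫⁻ x, ‖T1 (al κ a s) g x‖ₑ ^ 4 ≤
        ENNReal.ofReal ((1 + 8 * Real.pi) ^ 2) * ∫⁻ x, ‖g x‖ₑ ^ 4 := by
      intro a ha
      have hre := al_re (s := s) hκ ha.1
      refine (hY (al κ a s) hre g hg).trans ?_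
      gcongr
      rw [div_le_iff₀ hre]
      have h2 : ‖al κ a s‖ ≤ |(al κ a s).re| + |(al κ a s).im| := Complex.norm_le_abs_re_add_abs_im _
      rw [abs_of_pos hre] at h2
      have h3 : (al κ a s).re = κ * (a - 1 / 2) := rfl
      have h4 : (al κ a s).im = κ * (2 * Real.pi * a * s) := rfl
      have h5 : |(al κ a s).im| ≤ κ * (4 * Real.pi) := by
        rw [h4, abs_mul, abs_of_pos hκ]
        apply mul_le_mul_of_nonneg_left _ hκ.le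
        rw [abs_mul, abs_of_pos (by nlinarith [ha.1] : 0 < 2 * Real.pi * a)]
        calc 2 * Real.pi * a * |s| ≤ 2 * Real.pi * 2 * 1 := by
              apply mul_le_mul _ hs.le (abs_nonneg s) (by positivity)
              apply mul_le_mul_of_nonneg_left ha.2 (by positivity)
          _ = 4 * Real.pi := by ring
      have h6 : κ * (1 / 2) ≤ (al κ a s).re := by
        rw [h3]
        apply mul_le_mul_of_nonneg_left _ hκ.le
        linarith [ha.1]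
      nlinarith
    calc ∫⁻ a in Icc (1 : ℝ) 2, ∫⁻ x, ‖T1 (al κ a s) g x‖ₑ ^ 4
        ≤ ∫⁻ _a in Icc (1 : ℝ) 2, ENNReal.ofReal ((1 + 8 * Real.pi) ^ 2) * ∫⁻ x, ‖g x‖ₑ ^ 4 :=
          setLIntegral_mono' measurableSet_Icc h1
      _ = ENNReal.ofReal ((1 + 8 * Real.pi) ^ 2) * ∫⁻ x, ‖g x‖ₑ ^ 4 := by
          rw [setLIntegral_const, Real.volume_Icc]
          norm_num
      _ ≤ _ := by
          gcongr
          nlinarith [sq_nonneg (1 + 8 * Real.pi)]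
  · have hs0 : 0 < Real.sqrt κ := Real.sqrt_pos.mpr hκ
    set g' : ℝ → ℂ := fun y => g (Real.sqrt κ * y) with hg'
    have hm' : Measurable g' := hg.comp (measurable_const_mul _)
    have hi' : Integrable g' := hgi.comp_mul_left' hs0.ne'
    have h1 : ∀ a ∈ Icc (1 : ℝ) 2, ∫⁻ x, ‖T1 (al κ a s) g x‖ₑ ^ 4 =
        ENNReal.ofReal (Real.sqrt κ) * ∫⁻ x, ‖T1 (al 1 a s) g' x‖ₑ ^ 4 := by
      intro a ha
      have hre := al_re (s := s) one_pos ha.1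
      rw [al_eq]
      simp_rw [T1_scale hκ hre]
      rw [lint_comp (fun x => ‖T1 (al 1 a s) g' x‖ₑ ^ 4) (inv_pos.mpr hs0), inv_inv]
    have h2 : ∫⁻ x, ‖g' x‖ₑ ^ 4 = ENNReal.ofReal (Real.sqrt κ)⁻¹ * ∫⁻ x, ‖g x‖ₑ ^ 4 :=
      lint_comp (fun x => ‖g x‖ₑ ^ 4) hs0
    calc ∫⁻ a in Icc (1 : ℝ) 2, ∫⁻ x, ‖T1 (al κ a s) g x‖ₑ ^ 4
        = ∫⁻ a in Icc (1 : ℝ) 2, ENNReal.ofReal (Real.sqrt κ) * ∫⁻ x, ‖T1 (al 1 a s) g' x‖ₑ ^ 4 :=
          setLIntegral_congr_fun measurableSet_Icc h1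
      _ = ENNReal.ofReal (Real.sqrt κ) * ∫⁻ a in Icc (1 : ℝ) 2, ∫⁻ x, ‖T1 (al 1 a s) g' x‖ₑ ^ 4 :=
          lintegral_const_mul' _ _ ENNReal.ofReal_ne_top
      _ ≤ ENNReal.ofReal (Real.sqrt κ) * (ENNReal.ofReal (C' * (1 + Real.log |s|)) *
            ∫⁻ x, ‖g' x‖ₑ ^ 4) := by
          gcongr
          exact hC' g' hm' hi' s hs
      _ = ENNReal.ofReal (C' * (1 + Real.log |s|)) * ∫⁻ x, ‖g x‖ₑ ^ 4 := by
          rw [h2]
          have h3 : ENNReal.ofReal (Real.sqrt κ) * ENNReal.ofReal (Real.sqrt κ)⁻¹ = 1 := by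
            rw [← ENNReal.ofReal_mul hs0.le, mul_inv_cancel₀ hs0.ne', ENNReal.ofReal_one]
          calc ENNReal.ofReal (Real.sqrt κ) * (ENNReal.ofReal (C' * (1 + Real.log |s|)) *
              (ENNReal.ofReal (Real.sqrt κ)⁻¹ * ∫⁻ x, ‖g x‖ₑ ^ 4)) =
              (ENNReal.ofReal (Real.sqrt κ) * ENNReal.ofReal (Real.sqrt κ)⁻¹) *
              (ENNReal.ofReal (C' * (1 + Real.log |s|)) * ∫⁻ x, ‖g x‖ₑ ^ 4) := by ring
            _ = _ := by rw [h3, one_mul]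
      _ ≤ _ := by
          have h5 : 0 ≤ Real.log |s| := Real.log_nonneg hs
          gcongr
          · linarith [sq_nonneg (1 + 8 * Real.pi)]
          · linarith

end Pool.Agent.W311.BE
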